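import Pool.Agent.CorI.Limit

/-!
# From the bounded pairing to the frozen statement (helper92)
-/

set_option autoImplicit false

namespace Pool.Agent.CorI

open Complex Metric Set Filter Topology
open Pool.Corona91698f Pool.Agent.CorE Pool.Agent.CorA
open scoped Real BoundedContinuousFunction

/-- MAB: local solutions with bounded pairing. -/
def T_MAB : Prop := ∀ (n : ℕ) (δ C₀ : ℝ), 0 < δ → 0 < C₀ → ∃ B C : ℝ, 1 ≤ B ∧ 0 < C ∧
  ∀ (N : ℕ) (f : Fin n → ℂ → ℂ) (h : Fin n → Fin n → ℂ → ℂ) (a : List D → ℝ), 1 ≤ N →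
  Dat n δ f → HD n N h a C₀ → ∃ g, LS n f g B ∧ ‖TB N g h‖ ≤ C

/-- LEVEL: bounded solutions at every level by duality. -/
theorem level (hDUA : T_DUA) (hMAB : T_MAB) : T_LVL := by
  intro n δ hδ
  obtain ⟨C₁, hC₁, HD⟩ := hDUA n δ hδ
  obtain ⟨B, Cm, hB, hCm, HM⟩ := hMAB n δ C₁ hδ hC₁
  obtain ⟨C, hC, H⟩ := HD B hB
  refine ⟨C * (1 + Cm), by positivity, fun f hf N hN => ?_⟩
  exact H N f Cm hf hCm.le fun h a hHD => HM N f h a hN hf hHD

/-- The frozen statement from the bounded pairing. -/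
theorem assemble (hDUA : T_DUA) (hMAB : T_MAB) : T_BDD := limit (level hDUA hMAB)

end Pool.Agent.CorI
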