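import Pool.Agent.CorA.Defs

/-!
# From bounded solutions at every level to the frozen statement (helper92)
-/

set_option autoImplicit false

namespace Pool.Agent.CorI

open Complex Metric Set Filter Topology
open Pool.Corona91698f Pool.Agent.CorE Pool.Agent.CorA

/-- LVL: bounded solutions at every level, with a constant which does not depend on the level. -/
def T_LVL : Prop := ∀ (n : ℕ) (δ : ℝ), 0 < δ → ∃ C : ℝ, 0 < C ∧
  ∀ f : Fin n → ℂ → ℂ, Dat n δ f → ∀ N : ℕ, 1 ≤ N → ∃ G : Fin n → ℂ → ℂ,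
    (∀ i, DifferentiableOn ℂ (G i) (OmR (73 / 100) N)) ∧
    (∀ z ∈ OmR (73 / 100) N, ∑ j, f j z * G j z = 1) ∧
    ∀ i, ∀ z ∈ OmR (73 / 100) N, ‖G i z‖ ≤ C

/-- BDD: bounded solutions. -/
def T_BDD : Prop := ∀ (n : ℕ) (δ : ℝ), 0 < δ → ∃ C : ℝ, 0 < C ∧
  ∀ f : Fin n → ℂ → ℂ, Dat n δ f → ∃ g : Fin n → ℂ → ℂ,
    (∀ j, DifferentiableOn ℂ (g j) squareCantorᶜ) ∧
    (∀ z ∈ squareCantorᶜ, ∑ j, f j z * g j z = 1) ∧
    ∀ j, ∀ z ∈ squareCantorᶜ, ‖g j z‖ ≤ C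

theorem digits_eq : {x : ℝ | ∃ d : ℕ → ℕ, (∀ k, d k = 0 ∨ d k = 2) ∧
    x = ∑' k, (d k : ℝ) / (3 : ℝ) ^ (k + 1)} = cantorSet := by
  rw [cantorSet_eq_zero_two_ofDigits]
  ext x
  constructor
  · rintro ⟨d, hd, rfl⟩
    refine ⟨fun k => ⟨d k, by rcases hd k with h | h <;> omega⟩, fun k => ?_, ?_⟩
    · intro h
      have := congrArg Fin.val h
      simp at this
      rcases hd k with h | h <;> omega
    · unfold Real.ofDigits
      refine tsum_congr fun k => ?_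
      unfold Real.ofDigitsTerm
      simp [div_eq_mul_inv]
  · rintro ⟨a, ha, rfl⟩
    refine ⟨fun k => (a k : ℕ), fun k => ?_, ?_⟩
    · have h1 := ha k
      have h2 := (a k).isLt
      have h3 : (a k : ℕ) ≠ 1 := by
        intro h
        exact h1 (Fin.ext h)
      show (a k : ℕ) = 0 ∨ (a k : ℕ) = 2
      omega
    · unfold Real.ofDigits
      refine tsum_congr fun k => ?_
      unfold Real.ofDigitsTerm
      simp [div_eq_mul_inv]

/-- The frozen statement from bounded solutions for data bounded by one. -/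
theorem frozen (h : T_BDD) :
    ∀ (K : Set ℝ), K = {x : ℝ | ∃ d : ℕ → ℕ, (∀ k, d k = 0 ∨ d k = 2) ∧
        x = ∑' k, (d k : ℝ) / (3 : ℝ) ^ (k + 1)} →
    ∀ (Ω : Set ℂ), Ω = {z : ℂ | ¬ (z.re ∈ K ∧ z.im ∈ K)} →
    ∀ (n : ℕ) (f : Fin n → ℂ → ℂ) (δ : ℝ), 0 < δ →
      (∀ j, DifferentiableOn ℂ (f j) Ω) →
      (∀ j, ∃ M : ℝ, ∀ z ∈ Ω, ‖f j z‖ ≤ M) →
      (∀ z ∈ Ω, ∃ j, δ ≤ ‖f j z‖) →
      ∃ g : Fin n → ℂ → ℂ,
        (∀ j, DifferentiableOn ℂ (g j) Ω) ∧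
        (∀ j, ∃ M : ℝ, ∀ z ∈ Ω, ‖g j z‖ ≤ M) ∧
        (∀ z ∈ Ω, ∑ j, f j z * g j z = 1) := by
  intro K hK Ω hΩ n f δ hδ h1 h2 h3
  have hS : Ω = squareCantorᶜ := by
    rw [hΩ, hK, digits_eq]
    rfl
  subst hS
  choose M hM using h2
  obtain ⟨B, hB⟩ : ∃ B : ℝ, B = 1 + ∑ j, |M j| := ⟨_, rfl⟩
  have hB1 : 1 ≤ B := by
    rw [hB]
    have : 0 ≤ ∑ j, |M j| := Finset.sum_nonneg fun j _ => abs_nonneg _
    linarith
  have hB0 : 0 < B := by linarith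
  have hMB : ∀ j, M j ≤ B := by
    intro j
    have e1 := Finset.single_le_sum (fun j _ => abs_nonneg (M j)) (Finset.mem_univ j)
    have e2 := le_abs_self (M j)
    rw [hB]
    linarith
  have hBC : (B : ℂ) ≠ 0 := by exact_mod_cast hB0.ne'
  obtain ⟨C, hC, H⟩ := h n (δ / B) (by positivity)
  obtain ⟨g, g1, g2, g3⟩ := H (fun j z => (B : ℂ)⁻¹ * f j z) ⟨fun j => (h1 j).const_mul _,
    fun j z hz => by
      rw [norm_mul, norm_inv, Complex.norm_real, Real.norm_of_nonneg hB0.le]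
      have e1 := (hM j z hz).trans (hMB j)
      rw [inv_mul_le_iff₀ hB0]
      linarith,
    fun z hz => by
      obtain ⟨j, hj⟩ := h3 z hz
      refine ⟨j, ?_⟩
      rw [norm_mul, norm_inv, Complex.norm_real, Real.norm_of_nonneg hB0.le, div_eq_inv_mul]
      gcongr⟩
  refine ⟨fun j z => (B : ℂ)⁻¹ * g j z, fun j => (g1 j).const_mul _, fun j => ⟨B⁻¹ * C, ?_⟩, ?_⟩
  · intro z hz
    rw [norm_mul, norm_inv, Complex.norm_real, Real.norm_of_nonneg hB0.le]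
    have := g3 j z hz
    gcongr
  · intro z hz
    rw [← g2 z hz]
    refine Finset.sum_congr rfl fun j _ => ?_
    ring

end Pool.Agent.CorI
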