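import Pool.Agent.CorA.Targets

/-!
# Inner growth lemma (helper92): statements

The circle of radius 795/1000 in the coordinates of the node lies in the node itself, so the lemma
needs no information about the node of the parent.
-/

set_option autoImplicit false

namespace Pool.Agent.CorI

open Complex Metric Set Filter Topology MeasureTheory
open Pool.Corona91698f Pool.Agent.CorE Pool.Agent.CorA
open scoped Real BoundedContinuousFunction

/-- AVR: as AVS, on the smaller disc. -/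
def T_AVR : Prop := ∃ C : ℝ, 1 ≤ C ∧ ∀ (G : ℂ → ℂ) (M μ : ℝ) (y₀ : ℂ) (j : ℕ),
  DifferentiableOn ℂ G (ball ctr (795 / 1000)) → (∀ z ∈ ball ctr (795 / 1000), ‖G z‖ ≤ M) →
  0 < μ → dist y₀ ctr ≤ 76 / 100 → μ ≤ ‖G y₀‖ →
  ∃ zz : List D → ℂ, (∀ x ∈ lv j, Psi x (zz x) ∈ nodeX) ∧
    4 ^ j * (M * (μ / M) ^ C) ≤ ∑ x ∈ lv j, ‖G (zz x)‖

/-- GLI: the inner growth lemma. The bound on the circle of radius 795/1000 replaces the bound at
the parent; `u` may be empty. -/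
def T_GLI : Prop := ∃ C : ℝ, 1 ≤ C ∧ ∀ (N j : ℕ) (u : List D) (H : ℂ → ℂ) (b : List D → ℝ)
  (A K : ℝ) (y₀ : ℂ), 1 ≤ j → u.length + 2 * j < N → DifferentiableOn ℂ H (OmR (73 / 100) N) →
  (∀ v : List D, v.length < N → ∀ z, Psi v z ∈ nodeX → ‖H z‖ ≤ 3 ^ v.length * b v) →
  0 < A → 1 ≤ K → Psi u y₀ ∈ nodeX → dist (Psi u y₀) ctr ≤ 76 / 100 →
  3 ^ u.length * A ≤ ‖H y₀‖ →
  (∀ z, dist (Psi u z) ctr = 795 / 1000 → ‖H z‖ ≤ 3 ^ u.length * (K * A)) →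
  A ≤ C * K ^ C * ((3 / 4) ^ j * (∑ x ∈ lv j, b (u ++ x) +
    ∑ x ∈ lv (2 * j), b (u ++ x)) + ∑ x ∈ lv (2 * j), ‖cm (u ++ x) H‖)

end Pool.Agent.CorI
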