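import Pool.Agent.CorI.Frozen
import Pool.Agent.CorE.P_LIM
import Pool.Agent.CorA.P_GLU

/-!
# Passage to the limit of the levels (helper92)
-/

set_option autoImplicit false

namespace Pool.Agent.CorI

open Complex Metric Set Filter Topology
open Pool.Corona91698f Pool.Agent.CorE Pool.Agent.CorA

theorem Nd_OmR {R : Option (List D)} {N : ℕ} (hN : GLU_.len R < N) :
    Nd R ⊆ OmR (73 / 100) N := by
  intro z hz
  have hz' : z ∈ NR R := Nd_subset_NR R hz
  cases R with
  | none =>
    intro q _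
    have h1 : (74 / 100 : ℝ) < dist z ctr := hz'
    have := GLU_.keep q (w := z) (c := 74 / 100) (by norm_num) h1.le
    linarith
  | some v => exact GLU_.inOm hN (nodeV_subset hz')

/-- LIM: the limit of the levels. -/
theorem limit (h : T_LVL) : T_BDD := by
  intro n δ hδ
  obtain ⟨C, hC, H⟩ := h n δ hδ
  refine ⟨C, hC, fun f hf => ?_⟩
  choose! G hGd hGs hGb using H f hf
  obtain ⟨U, hU⟩ : ∃ U : Ultrafilter ℕ, (U : Filter ℕ) ≤ atTop :=
    ⟨Ultrafilter.of atTop, Ultrafilter.of_le atTop⟩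
  have hev : ∀ k : ℕ, ∀ᶠ N in (U : Filter ℕ), k ≤ N := fun k => hU (eventually_ge_atTop k)
  have hb : ∀ (R : Option (List D)) (N : ℕ), GLU_.len R + 1 ≤ N → ∀ z ∈ Nd R, ∀ j,
      ‖G N j z‖ ≤ C := by
    intro R N hN z hz j
    exact hGb N (by omega) j z (Nd_OmR hN hz)
  have hglim : ∀ j z, ∃ l, z ∉ squareCantor → Tendsto (fun N => G N j z) U (𝓝 l) := by
    intro j z
    by_cases hz : z ∈ squareCantor
    · exact ⟨0, fun h => absurd hz h⟩
    obtain ⟨R, hR⟩ := Nd_cover hz
    obtain ⟨l, hl⟩ := LIM_.lim_exists U (a := fun N => G N j z) (M := C) (by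
        filter_upwards [hev (GLU_.len R + 1)] with N hN
        exact hb R N hN z hR j)
    exact ⟨l, fun _ => hl⟩
  choose g hg using hglim
  have hNdm : ∀ R, ∀ z ∈ Nd R, z ∉ squareCantor := fun R z hz => Nd_notMem hz
  refine ⟨g, ?_, ?_, ?_⟩
  · intro j z hz
    obtain ⟨R, hR⟩ := Nd_cover hz
    have h1 : DifferentiableOn ℂ (g j) (Nd R) := by
      refine LIM_.lim_hol (Φ := (U : Filter ℕ)) (isOpen_Nd R) (F := fun N => G N j)
        (M := C) ?_ ?_ ?_
      · filter_upwards [hev (GLU_.len R + 1)] with N hN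
        exact (hGd N (by omega) j).mono (Nd_OmR hN)
      · filter_upwards [hev (GLU_.len R + 1)] with N hN z hz
        exact hb R N hN z hz j
      · intro z hz
        exact hg j z (hNdm R z hz)
    exact (h1.differentiableAt ((isOpen_Nd R).mem_nhds hR)).differentiableWithinAt
  · intro z hz
    obtain ⟨R, hR⟩ := Nd_cover hz
    have h1 : Tendsto (fun N => ∑ j, f j z * G N j z) U (𝓝 (∑ j, f j z * g j z)) :=
      tendsto_finsetSum _ fun j _ => (hg j z hz).const_mul _
    refine tendsto_nhds_unique h1 (tendsto_const_nhds.congr' ?_)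
    filter_upwards [hev (GLU_.len R + 1)] with N hN
    exact (hGs N (by omega) z (Nd_OmR hN hR)).symm
  · intro j z hz
    obtain ⟨R, hR⟩ := Nd_cover hz
    refine le_of_tendsto (hg j z hz).norm ?_
    filter_upwards [hev (GLU_.len R + 1)] with N hN
    exact hb R N hN z hR j

end Pool.Agent.CorI
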