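import Pool.Agent.CorI.Inner
import Pool.Agent.CorA.P_AVS

/-!
# Block AVR: a holomorphic function is large on many squares, smaller disc
-/

set_option autoImplicit false

namespace Pool.Agent.CorI

open Complex Metric Set Filter Topology MeasureTheory
open Pool.Corona91698f Pool.Agent.CorE Pool.Agent.CorA
open scoped Real BoundedContinuousFunction

open Pool.Agent.CorA.AVS_ in
theorem p_AVR (hLGA : T_LGA) (hPRD : T_PRD) : T_AVR := by
  obtain ⟨C, hC, hL⟩ := hLGA (96 / 100) (by norm_num) (by norm_num)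
  refine ⟨C + 4 * C, by linarith, ?_⟩
  intro G M μ y₀ j hG hM hμ hy hGy
  have hyM : ‖G y₀‖ ≤ M := hM y₀ (by rw [mem_ball]; linarith)
  have hM0 : 0 < M := by linarith
  have hr : (0 : ℝ) < 5 / 100 * (1 / 3) ^ j := by positivity
  obtain ⟨m, a, hm, hlow⟩ := hL ctr (795 / 1000) M μ G y₀ (by norm_num) hμ hG hM (by linarith) hGy
  choose zz hz1 hz2 using fun x : List D => hPRD m a (Phi x ctr) (5 / 100 * (1 / 3) ^ j) hr
  refine ⟨zz, fun x hx => ?_, ?_⟩
  · have hxl := mem_lv.1 hx
    have h1 : dist (Psi x (zz x)) ctr = 5 / 100 := by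
      have h2 := dist_Psi x (zz x) (Phi x ctr)
      rw [Psi_Phi, hz1, hxl] at h2
      rw [h2]
      have h3 : (3 : ℝ) ^ j * (1 / 3) ^ j = 1 := by
        rw [← mul_pow]
        norm_num
      linear_combination (5 / 100 : ℝ) * h3
    refine ⟨by rw [h1]; norm_num, fun d => ?_⟩
    rw [dist_psi_ctr]
    have h4 := phi_ctr_ge d
    have h5 := dist_triangle (phi d ctr) (Psi x (zz x)) ctr
    rw [dist_comm (phi d ctr) (Psi x (zz x))] at h5
    linarith
  · set A : ℝ := M * (μ / M) ^ C with hA
    have hA0 : 0 < A := by positivity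
    have h1 : ∀ x ∈ lv j, A * ∏ i, tt j (a i) x ≤ ‖G (zz x)‖ := by
      intro x _
      have h2 : dist (zz x) ctr ≤ 96 / 100 * (795 / 1000) := by
        have h3 := dist_triangle (zz x) (Phi x ctr) ctr
        rw [hz1] at h3
        have h4 := GEO_.near x
        have h5 : (0 : ℝ) < (1 / 3) ^ x.length := by positivity
        have h6 : ((1 : ℝ) / 3) ^ j ≤ 1 := pow_le_one₀ (by norm_num) (by norm_num)
        linarith
      refine le_trans ?_ (hlow (zz x) h2)
      refine mul_le_mul_of_nonneg_left ?_ hA0.le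
      have e1 : ∏ i, tt j (a i) x =
          (∏ i, max (dist (Phi x ctr) (a i)) (5 / 100 * (1 / 3) ^ j)) / (9 / 5) ^ m := by
        unfold tt
        rw [Finset.prod_div_distrib, Finset.prod_const, Finset.card_univ, Fintype.card_fin]
      have e2 : (∏ i, dist (zz x) (a i)) / (9 / 5) ^ m ≤
          ∏ i, (dist (zz x) (a i) / (2 * (795 / 1000))) := by
        have e3 : (∏ i, dist (zz x) (a i)) / (9 / 5) ^ m =
            ∏ i, (dist (zz x) (a i) / (9 / 5)) := by
          rw [Finset.prod_div_distrib, Finset.prod_const, Finset.card_univ, Fintype.card_fin]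
        rw [e3]
        refine Finset.prod_le_prod (fun i _ => by positivity) fun i _ => ?_
        exact div_le_div_of_nonneg_left dist_nonneg (by norm_num) (by norm_num)
      rw [e1]
      exact le_trans (div_le_div_of_nonneg_right (hz2 x) (by positivity)) e2
    refine le_trans ?_ (Finset.sum_le_sum h1)
    rw [← Finset.mul_sum]
    have h7 := mul_le_mul_of_nonneg_left (sum_prod j m a) hA0.le
    refine le_trans ?_ h7
    have hq : 0 < μ / M := by positivity
    have h8 : (μ / M) ^ (C + 4 * C) = (μ / M) ^ C * (μ / M) ^ (4 * C) := Real.rpow_add hq _ _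
    have h9 : (μ / M) ^ (4 * C) ≤ Real.exp (-(4 * m)) := by
      rw [Real.rpow_def_of_pos hq]
      refine Real.exp_le_exp.2 ?_
      have h10 : Real.log (μ / M) = -Real.log (M / μ) := by
        rw [← Real.log_inv, inv_div]
      rw [h10]
      linarith
    rw [h8, hA]
    calc 4 ^ j * (M * ((μ / M) ^ C * (μ / M) ^ (4 * C)))
        ≤ 4 ^ j * (M * ((μ / M) ^ C * Real.exp (-(4 * m)))) := by gcongr
      _ = M * (μ / M) ^ C * (4 ^ j * Real.exp (-(4 * m))) := by ring

end Pool.Agent.CorI
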