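import Pool.Agent.CorI.Inner
import Pool.Agent.CorA.P_GLL

/-!
# Block GLI: the inner growth lemma
-/

set_option autoImplicit false

namespace Pool.Agent.CorI

open Complex Metric Set Filter Topology MeasureTheory
open Pool.Corona91698f Pool.Agent.CorE Pool.Agent.CorA Pool.Agent.CorA.GLL_
open scoped Real BoundedContinuousFunction

theorem p_GLI (hAVS : T_AVR) (hDCM : T_DCM) (hHVS : T_HVS) : T_GLI := by
  obtain ⟨Ca, hCa, hA⟩ := hAVS
  obtain ⟨C₁, hC₁, hD⟩ := hDCM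
  obtain ⟨Ch, hCh, hH⟩ := hHVS
  refine ⟨20000 * C₁ + (4 : ℝ) ^ Ca * (1 + C₁ * Ch) + Ca, ?_, ?_⟩
  · have : 0 < (4 : ℝ) ^ Ca := by positivity
    have : 0 < (4 : ℝ) ^ Ca * (1 + C₁ * Ch) := by positivity
    linarith
  intro N j u H b A K y₀ hj hN hHd hb hA0 hK hy₀ hy₀' hy₁ hcc
  obtain ⟨C, hCd⟩ : ∃ C : ℝ, C = 20000 * C₁ + (4 : ℝ) ^ Ca * (1 + C₁ * Ch) + Ca := ⟨_, rfl⟩
  rw [← hCd]
  have h4 : 0 < (4 : ℝ) ^ Ca := by positivity
  have h4' : 0 < (4 : ℝ) ^ Ca * (1 + C₁ * Ch) := by positivity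
  have hb0 : ∀ v : List D, v.length < N → 0 ≤ b v := by
    intro v hv
    have h1 := hb v hv (Phi v ctr) (by rw [Psi_Phi]; exact ctr_nodeX)
    have h2 := (norm_nonneg _).trans h1
    have h3 : (0 : ℝ) < 3 ^ v.length := by positivity
    exact (mul_nonneg_iff_of_pos_left h3).1 h2
  obtain ⟨Ho, Hv, hHo, hdec, hHv⟩ := hD N (2 * j) u H (fun x => b (u ++ x)) hN hHd (by
    intro x hx z hz
    have hl : (u ++ x).length = u.length + 2 * j := by
      rw [List.length_append, mem_lv.1 hx]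
    have := hb (u ++ x) (by rw [hl]; exact hN) z hz
    rwa [hl] at this)
  have hb2 : ∀ x ∈ lv (2 * j), 0 ≤ b (u ++ x) := fun x hx =>
    hb0 _ (by rw [List.length_append, mem_lv.1 hx]; exact hN)
  have hb1 : ∀ x ∈ lv j, 0 ≤ b (u ++ x) := fun x hx =>
    hb0 _ (by rw [List.length_append, mem_lv.1 hx]; omega)
  obtain ⟨S1, hS1⟩ : ∃ S : ℝ, S = ∑ x ∈ lv j, b (u ++ x) := ⟨_, rfl⟩
  obtain ⟨S2, hS2⟩ : ∃ S : ℝ, S = ∑ x ∈ lv (2 * j), b (u ++ x) := ⟨_, rfl⟩
  obtain ⟨S3, hS3⟩ : ∃ S : ℝ, S = ∑ x ∈ lv (2 * j), ‖cm (u ++ x) H‖ := ⟨_, rfl⟩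
  rw [← hS1, ← hS2, ← hS3]
  have hS10 : 0 ≤ S1 := hS1 ▸ Finset.sum_nonneg hb1
  have hS20 : 0 ≤ S2 := hS2 ▸ Finset.sum_nonneg hb2
  have hS30 : 0 ≤ S3 := hS3 ▸ Finset.sum_nonneg fun x _ => norm_nonneg _
  have hKC : 1 ≤ K ^ C := Real.one_le_rpow hK (by rw [hCd]; positivity)
  have hKCa : K ^ Ca ≤ K ^ C := Real.rpow_le_rpow_of_exponent_le hK (by rw [hCd]; linarith)
  have hT : 0 ≤ (3 / 4) ^ j * (S1 + S2) + S3 := by positivity
  -- the sum of the terms near the square of `u`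
  have hsum : ∀ z : ℂ, (∀ e : D, 74 / 100 ≤ dist (psi e (Psi u z)) ctr) →
      (∀ x ∈ lv (2 * j), 74 / 100 ≤ dist (Psi (u ++ x) z) ctr) ∧
      (1 / 3) ^ u.length * ∑ x ∈ lv (2 * j), ‖Hv x z‖ ≤ 10000 * C₁ * (S3 + (1 / 9) ^ j * S2) := by
    intro z hz
    have hne : ∀ x ∈ lv (2 * j), x ≠ [] := by
      rintro x hx rfl
      have := mem_lv.1 hx
      simp at this
      omega
    have h1 : ∀ x ∈ lv (2 * j), 74 / 100 ≤ dist (Psi (u ++ x) z) ctr := by
      intro x hx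
      rw [Psi_append]
      exact (far hz (hne x hx)).1
    refine ⟨h1, ?_⟩
    rw [Finset.mul_sum, hS3, hS2, Finset.mul_sum, ← Finset.sum_add_distrib, Finset.mul_sum]
    exact Finset.sum_le_sum fun x hx => term hC₁ hj hx hz (norm_nonneg _) (hb2 x hx)
      (hHv x hx z (h1 x hx))
  have h9 : (1 / 9 : ℝ) ^ j ≤ (3 / 4) ^ j :=
    pow_le_pow_left₀ (by norm_num) (by norm_num) j
  have hQ : S3 + (1 / 9) ^ j * S2 ≤ (3 / 4) ^ j * (S1 + S2) + S3 := by
    have e1 : (1 / 9 : ℝ) ^ j * S2 ≤ (3 / 4) ^ j * S2 := by gcongr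
    have e2 : 0 ≤ (3 / 4 : ℝ) ^ j * S1 := by positivity
    linarith
  by_cases hcase : A / 2 ≤ 10000 * C₁ * (S3 + (1 / 9) ^ j * S2)
  · calc A ≤ 20000 * C₁ * (S3 + (1 / 9) ^ j * S2) := by linarith
      _ ≤ 20000 * C₁ * ((3 / 4) ^ j * (S1 + S2) + S3) := by gcongr
      _ ≤ C * K ^ C * ((3 / 4) ^ j * (S1 + S2) + S3) := by
          refine mul_le_mul_of_nonneg_right ?_ hT
          have h0 : 0 ≤ C := by rw [hCd]; positivity
          have h01 : 20000 * C₁ ≤ C := by rw [hCd]; linarith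
          have h02 : C * 1 ≤ C * K ^ C := mul_le_mul_of_nonneg_left hKC h0
          linarith
  · push Not at hcase
    obtain ⟨G, hG⟩ : ∃ G : ℂ → ℂ, G = fun y => (((1 / 3) ^ u.length : ℝ) : ℂ) * Ho (Phi u y) :=
      ⟨_, rfl⟩
    have hGn : ∀ y, ‖G y‖ = (1 / 3) ^ u.length * ‖Ho (Phi u y)‖ := by
      intro y
      rw [hG]
      simp only [norm_mul, Complex.norm_real]
      rw [Real.norm_of_nonneg (by positivity)]
    have hGd : DifferentiableOn ℂ G {y | dist y ctr < 1} := by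
      rw [hG]
      refine DifferentiableOn.const_mul ?_ _
      refine hHo.comp (differentiable_Phi u).differentiableOn fun y hy => ?_
      show dist (Psi u (Phi u y)) ctr < 1
      rw [Psi_Phi]
      exact hy
    -- the circle
    have hcir : ∀ y, dist y ctr = 795 / 1000 → ‖G y‖ ≤ 2 * K * A := by
      intro y hy
      obtain ⟨z, hz⟩ : ∃ z, z = Phi u y := ⟨_, rfl⟩
      have hPz : Psi u z = y := by rw [hz, Psi_Phi]
      have h1 : ∀ e : D, 74 / 100 ≤ dist (psi e (Psi u z)) ctr := by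
        intro e
        rw [hPz]
        have := dist_psi_ge e y
        linarith
      obtain ⟨h2, h3⟩ := hsum z h1
      have h5 := hdec z (by rw [hPz, hy]; norm_num) (fun x hx => by
        have := h2 x hx
        linarith)
      have h6 : ‖Ho z‖ ≤ ‖H z‖ + ∑ x ∈ lv (2 * j), ‖Hv x z‖ := by
        have e1 : Ho z = H z - ∑ x ∈ lv (2 * j), Hv x z := by
          rw [h5]
          ring
        rw [e1]
        exact (norm_sub_le _ _).trans (by gcongr; exact norm_sum_le _ _)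
      have h8 : (1 / 3) ^ u.length * ‖H z‖ ≤ K * A := by
        have e3 : (1 / 3 : ℝ) ^ u.length * 3 ^ u.length = 1 := by
          rw [← mul_pow]
          norm_num
        calc (1 / 3) ^ u.length * ‖H z‖
            ≤ (1 / 3) ^ u.length * (3 ^ u.length * (K * A)) := by
              gcongr
              exact hcc z (by rw [hPz]; exact hy)
          _ = ((1 / 3 : ℝ) ^ u.length * 3 ^ u.length) * (K * A) := by ring
          _ = K * A := by rw [e3, one_mul]
      rw [hGn, ← hz]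
      calc (1 / 3) ^ u.length * ‖Ho z‖
          ≤ (1 / 3) ^ u.length * (‖H z‖ + ∑ x ∈ lv (2 * j), ‖Hv x z‖) := by gcongr
        _ = (1 / 3) ^ u.length * ‖H z‖ + (1 / 3) ^ u.length * ∑ x ∈ lv (2 * j), ‖Hv x z‖ := by ring
        _ ≤ K * A + A / 2 := by linarith
        _ ≤ 2 * K * A := by nlinarith
    have hball : ∀ y ∈ closedBall ctr (795 / 1000 : ℝ), ‖G y‖ ≤ 2 * K * A := by
      intro y hy
      have e1 : closedBall ctr (795 / 1000 : ℝ) ⊆ {y | dist y ctr < 1} := fun w hw => by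
        rw [mem_closedBall] at hw
        show dist w ctr < 1
        linarith
      have e2 := (hGd.mono e1)
      refine Complex.norm_le_of_forall_mem_frontier_norm_le (U := ball ctr (795 / 1000))
        isBounded_ball (hGd.diffContOnCl_ball e1) (fun w hw => ?_) ?_
      · rw [frontier_ball _ (by norm_num), mem_sphere] at hw
        exact hcir w hw
      · rw [closure_ball _ (by norm_num)]
        exact hy
    -- the point
    have hpt : A / 2 ≤ ‖G (Psi u y₀)‖ := by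
      obtain ⟨h2, h3⟩ := hsum y₀ hy₀.2
      have h5 := hdec y₀ (by have := hy₀.1; linarith) (fun x hx => by
        have := h2 x hx
        linarith)
      have h6 : ‖H y₀‖ ≤ ‖Ho y₀‖ + ∑ x ∈ lv (2 * j), ‖Hv x y₀‖ := by
        rw [h5]
        exact (norm_add_le _ _).trans (by gcongr; exact norm_sum_le _ _)
      have h7 : A ≤ (1 / 3) ^ u.length * ‖H y₀‖ := by
        have e1 : (1 / 3 : ℝ) ^ u.length * 3 ^ u.length = 1 := by
          rw [← mul_pow]
          norm_num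
        calc A = (1 / 3 : ℝ) ^ u.length * 3 ^ u.length * A := by rw [e1, one_mul]
          _ = (1 / 3) ^ u.length * (3 ^ u.length * A) := by ring
          _ ≤ _ := by gcongr
      rw [hGn, Phi_Psi]
      have h8 : (1 / 3 : ℝ) ^ u.length * ‖H y₀‖ ≤ (1 / 3) ^ u.length * ‖Ho y₀‖ +
          (1 / 3) ^ u.length * ∑ x ∈ lv (2 * j), ‖Hv x y₀‖ := by
        rw [← mul_add]
        gcongr
      linarith
    have hM : 0 < 2 * K * A := by positivity
    obtain ⟨zz, hz1, hz2⟩ := hA G (2 * K * A) (A / 2) (Psi u y₀) j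
      (hGd.mono fun w hw => by
        rw [mem_ball] at hw
        show dist w ctr < 1
        linarith)
      (fun w hw => hball w (ball_subset_closedBall hw)) (by positivity)
      hy₀' hpt
    obtain ⟨zx, hzx⟩ : ∃ zx : List D → ℂ, zx = fun x => Phi u (zz x) := ⟨_, rfl⟩
    have hzP : ∀ x, Psi u (zx x) = zz x := by
      intro x
      rw [hzx]
      exact Psi_Phi u (zz x)
    have hzn : ∀ x ∈ lv j, Psi (u ++ x) (zx x) ∈ nodeX := by
      intro x hx
      rw [Psi_append, hzP]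
      exact hz1 x hx
    have hone : ∀ x ∈ lv j, (1 / 3) ^ j * ‖G (zz x)‖ ≤ b (u ++ x) +
        ∑ x' ∈ lv (2 * j), (1 / 3) ^ (u.length + j) * ‖Hv x' (zx x)‖ := by
      intro x hx
      have h2 : ∀ x' ∈ lv (2 * j), 74 / 100 ≤ dist (Psi (u ++ x') (zx x)) ctr := fun x' hx' =>
        (hH j u x' zx hj hx' hzn).1 x hx
      have h5 := hdec (zx x) (by
        have := le_of_Psi x (zz x) (by have := (hz1 x hx).1; linarith)
        rw [hzP]
        linarith) (fun x' hx' => by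
          have := h2 x' hx'
          linarith)
      have h6 : ‖Ho (zx x)‖ ≤ ‖H (zx x)‖ + ∑ x' ∈ lv (2 * j), ‖Hv x' (zx x)‖ := by
        have e1 : Ho (zx x) = H (zx x) - ∑ x' ∈ lv (2 * j), Hv x' (zx x) := by
          rw [h5]
          ring
        rw [e1]
        exact (norm_sub_le _ _).trans (by gcongr; exact norm_sum_le _ _)
      have hl : (u ++ x).length = u.length + j := by
        rw [List.length_append, mem_lv.1 hx]
      have h7 := hb (u ++ x) (by rw [hl]; omega) (zx x) (hzn x hx)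
      rw [hl] at h7
      have e2 : (1 / 3 : ℝ) ^ (u.length + j) * 3 ^ (u.length + j) = 1 := by
        rw [← mul_pow]
        norm_num
      have e3 : Phi u (zz x) = zx x := by rw [hzx]
      rw [hGn, e3, ← Finset.mul_sum]
      calc (1 / 3) ^ j * ((1 / 3) ^ u.length * ‖Ho (zx x)‖)
          = (1 / 3) ^ (u.length + j) * ‖Ho (zx x)‖ := by rw [pow_add]; ring
        _ ≤ (1 / 3) ^ (u.length + j) * (3 ^ (u.length + j) * b (u ++ x) +
            ∑ x' ∈ lv (2 * j), ‖Hv x' (zx x)‖) := by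
            gcongr
            linarith
        _ = (1 / 3 : ℝ) ^ (u.length + j) * 3 ^ (u.length + j) * b (u ++ x) +
            (1 / 3) ^ (u.length + j) * ∑ x' ∈ lv (2 * j), ‖Hv x' (zx x)‖ := by ring
        _ = _ := by rw [e2, one_mul]
    -- the double sum
    have htwo : ∀ x' ∈ lv (2 * j), ∑ x ∈ lv j, (1 / 3) ^ (u.length + j) * ‖Hv x' (zx x)‖ ≤
        C₁ * Ch * ((4 / 3) ^ j * ‖cm (u ++ x') H‖ + (1 / 3) ^ j * b (u ++ x')) := by
      intro x' hx'
      obtain ⟨k1, k2, k3⟩ := hH j u x' zx hj hx' hzn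
      calc ∑ x ∈ lv j, (1 / 3) ^ (u.length + j) * ‖Hv x' (zx x)‖
          ≤ ∑ x ∈ lv j, (1 / 3) ^ (u.length + j) * (C₁ * (‖cm (u ++ x') H‖ /
              dist (zx x) (cc (u ++ x')) + 3 ^ (u.length + 2 * j) * b (u ++ x') /
              (1 + dist (Psi (u ++ x') (zx x)) ctr) ^ 2)) := by
            refine Finset.sum_le_sum fun x hx => ?_
            have := hHv x' hx' (zx x) (k1 x hx)
            gcongr
        _ = C₁ * ‖cm (u ++ x') H‖ * ∑ x ∈ lv j, (1 / 3) ^ (u.length + j) /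
              dist (zx x) (cc (u ++ x')) +
            C₁ * b (u ++ x') * ∑ x ∈ lv j, (1 / 3) ^ (u.length + j) * 3 ^ (u.length + 2 * j) /
              (1 + dist (Psi (u ++ x') (zx x)) ctr) ^ 2 := by
            rw [Finset.mul_sum, Finset.mul_sum, ← Finset.sum_add_distrib]
            refine Finset.sum_congr rfl fun x _ => ?_
            ring
        _ ≤ C₁ * ‖cm (u ++ x') H‖ * (Ch * (4 / 3) ^ j) +
            C₁ * b (u ++ x') * (Ch * (1 / 3) ^ j) := by
            have := hb2 x' hx'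
            gcongr
        _ = _ := by ring
    have hall : (1 / 3) ^ j * ∑ x ∈ lv j, ‖G (zz x)‖ ≤
        S1 + C₁ * Ch * ((4 / 3) ^ j * S3 + (1 / 3) ^ j * S2) := by
      rw [Finset.mul_sum]
      calc ∑ x ∈ lv j, (1 / 3) ^ j * ‖G (zz x)‖
          ≤ ∑ x ∈ lv j, (b (u ++ x) +
            ∑ x' ∈ lv (2 * j), (1 / 3) ^ (u.length + j) * ‖Hv x' (zx x)‖) :=
            Finset.sum_le_sum hone
        _ = S1 + ∑ x' ∈ lv (2 * j), ∑ x ∈ lv j, (1 / 3) ^ (u.length + j) * ‖Hv x' (zx x)‖ := by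
            rw [Finset.sum_add_distrib, hS1, Finset.sum_comm]
        _ ≤ S1 + ∑ x' ∈ lv (2 * j),
            C₁ * Ch * ((4 / 3) ^ j * ‖cm (u ++ x') H‖ + (1 / 3) ^ j * b (u ++ x')) := by
            gcongr with x' hx'
            exact htwo x' hx'
        _ = _ := by
            rw [← Finset.mul_sum, Finset.sum_add_distrib, ← Finset.mul_sum, ← Finset.mul_sum,
              hS3, hS2]
    -- conclusion
    have hmu : A / 2 / (2 * K * A) = (4 * K)⁻¹ := by
      field_simp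
      ring
    rw [hmu] at hz2
    have hK0 : 0 < K := by linarith
    have hpw : ((4 * K)⁻¹ : ℝ) ^ Ca = (4 ^ Ca * K ^ Ca)⁻¹ := by
      rw [Real.inv_rpow (by positivity), Real.mul_rpow (by norm_num) hK0.le]
    rw [hpw] at hz2
    set P := (4 : ℝ) ^ Ca * K ^ Ca with hP
    have hP0 : 0 < P := by positivity
    have f1 : (4 / 3) ^ j * (2 * K * A * P⁻¹) ≤
        S1 + C₁ * Ch * ((4 / 3) ^ j * S3 + (1 / 3) ^ j * S2) := by
      calc (4 / 3) ^ j * (2 * K * A * P⁻¹) = (1 / 3) ^ j * (4 ^ j * (2 * K * A * P⁻¹)) := by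
            rw [← mul_assoc ((1 / 3 : ℝ) ^ j), ← mul_pow]
            norm_num
        _ ≤ (1 / 3) ^ j * ∑ x ∈ lv j, ‖G (zz x)‖ := by gcongr
        _ ≤ _ := hall
    have f2 : (3 / 4 : ℝ) ^ j * (4 / 3) ^ j = 1 := by
      rw [← mul_pow]
      norm_num
    have f3 : (3 / 4 : ℝ) ^ j * (1 / 3) ^ j ≤ (3 / 4) ^ j := by
      have : (1 / 3 : ℝ) ^ j ≤ 1 := pow_le_one₀ (by norm_num) (by norm_num)
      have h0 : (0 : ℝ) < (3 / 4) ^ j := by positivity
      nlinarith
    have f4 : 2 * K * A * P⁻¹ ≤ (1 + C₁ * Ch) * ((3 / 4) ^ j * (S1 + S2) + S3) := by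
      have f5 : (3 / 4 : ℝ) ^ j * ((4 / 3) ^ j * (2 * K * A * P⁻¹)) ≤
          (3 / 4) ^ j * (S1 + C₁ * Ch * ((4 / 3) ^ j * S3 + (1 / 3) ^ j * S2)) := by gcongr
      have f6 : (3 / 4 : ℝ) ^ j * ((4 / 3) ^ j * (2 * K * A * P⁻¹)) = 2 * K * A * P⁻¹ := by
        rw [← mul_assoc, f2, one_mul]
      have f7 : (3 / 4 : ℝ) ^ j * (S1 + C₁ * Ch * ((4 / 3) ^ j * S3 + (1 / 3) ^ j * S2)) =
          (3 / 4) ^ j * S1 + C₁ * Ch * S3 + C₁ * Ch * (((3 / 4) ^ j * (1 / 3) ^ j) * S2) := by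
        calc _ = (3 / 4) ^ j * S1 + C₁ * Ch * (((3 / 4 : ℝ) ^ j * (4 / 3) ^ j) * S3) +
              C₁ * Ch * (((3 / 4) ^ j * (1 / 3) ^ j) * S2) := by ring
          _ = _ := by rw [f2, one_mul]
      rw [f6, f7] at f5
      have f8 : C₁ * Ch * (((3 / 4) ^ j * (1 / 3) ^ j) * S2) ≤ C₁ * Ch * ((3 / 4) ^ j * S2) := by
        gcongr
      have g1 : 0 ≤ (3 / 4 : ℝ) ^ j * S2 := by positivity
      have g2 : 0 ≤ C₁ * Ch * ((3 / 4 : ℝ) ^ j * S1) := by positivity
      nlinarith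
    have f9 : A ≤ 2 * K * A := by nlinarith
    have hT' : 0 ≤ (1 + C₁ * Ch) * ((3 / 4) ^ j * (S1 + S2) + S3) := by positivity
    calc A ≤ 2 * K * A := f9
      _ = P * (2 * K * A * P⁻¹) := by field_simp
      _ ≤ P * ((1 + C₁ * Ch) * ((3 / 4) ^ j * (S1 + S2) + S3)) := by gcongr
      _ = (4 ^ Ca * (1 + C₁ * Ch)) * K ^ Ca * ((3 / 4) ^ j * (S1 + S2) + S3) := by
          rw [hP]
          ring
      _ ≤ C * K ^ C * ((3 / 4) ^ j * (S1 + S2) + S3) := by
          have h01 : 4 ^ Ca * (1 + C₁ * Ch) ≤ C := by rw [hCd]; linarith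
          have h02 : 0 ≤ C := h4'.le.trans h01
          gcongr

end Pool.Agent.CorI
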